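import Pool.Agent.Run7.h146.Met.I1

/-!
# Piece CAP: spherical caps
-/

set_option autoImplicit false

open MeasureTheory Filter Topology ENNReal

namespace Run7.h950.Met

open Run7.h146.Met

/-- the volume of the part of the unit ball in a slab -/
theorem slab (d : ℕ) (hd : 0 < d) (e : V d) (he : ‖e‖ = 1) (δ : ℝ) (hδ : 0 < δ) :
    volume (Metric.ball (0 : V d) 1 ∩ {x | |inner ℝ x e| ≤ δ}) ≤ ENNReal.ofReal (2 ^ d * δ) := by
  set i0 : Fin d := ⟨0, hd⟩ with hi0
  set b : V d := EuclideanSpace.single i0 (1 : ℝ) with hb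
  have hbn : ‖b‖ = 1 := by rw [hb, EuclideanSpace.norm_single, norm_one]
  obtain ⟨O, hO⟩ : ∃ O : V d ≃ₗᵢ[ℝ] V d, O e = b :=
    ⟨(ℝ ∙ (e - b))ᗮ.reflection, Submodule.reflection_sub (by rw [he, hbn])⟩
  have h1 : Metric.ball (0 : V d) 1 ∩ {x | |inner ℝ x e| ≤ δ} =
      O ⁻¹' (Metric.ball (0 : V d) 1 ∩ {x | |inner ℝ x b| ≤ δ}) := by
    ext x
    simp only [Set.mem_inter_iff, Metric.mem_ball, dist_zero_right, Set.mem_preimage,
      LinearIsometryEquiv.norm_map, Set.mem_setOf_eq]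
    rw [← hO, LinearIsometryEquiv.inner_map_map]
  have hm : MeasurableSet (Metric.ball (0 : V d) 1 ∩ {x | |inner ℝ x b| ≤ δ}) := by
    apply measurableSet_ball.inter
    exact measurableSet_le (by fun_prop) measurable_const
  rw [h1, O.measurePreserving.measure_preimage hm.nullMeasurableSet]
  set c : Fin d → ℝ := fun i => if i = i0 then δ else 1 with hc
  have h2 : Metric.ball (0 : V d) 1 ∩ {x | |inner ℝ x b| ≤ δ} ⊆
      (@WithLp.ofLp 2 (Fin d → ℝ)) ⁻¹' (Set.Icc (fun i => - c i) c) := by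
    rintro x ⟨hx1, hx2⟩
    rw [Metric.mem_ball, dist_zero_right] at hx1
    have hxi : ∀ i, |x i| ≤ 1 := fun i => by
      have := EuclideanSpace.norm_eq x
      have h3 : ‖x i‖ ≤ ‖x‖ := PiLp.norm_apply_le x i
      rw [Real.norm_eq_abs] at h3
      linarith
    have hx0 : |x i0| ≤ δ := by
      have h3 : inner ℝ x b = x i0 := by
        rw [hb, EuclideanSpace.inner_single_right]
        simp
      have h4 : |inner ℝ x b| ≤ δ := hx2
      rwa [h3] at h4
    have hall : ∀ i, |x i| ≤ c i := by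
      intro i
      by_cases hi : i = i0
      · rw [hc]
        simp only [hi, if_true]
        exact hx0
      · rw [hc]
        simp only [hi, if_false]
        exact hxi i
    exact ⟨fun i => (abs_le.1 (hall i)).1, fun i => (abs_le.1 (hall i)).2⟩
  refine (measure_mono h2).trans ?_
  rw [(PiLp.volume_preserving_ofLp (Fin d)).measure_preimage measurableSet_Icc.nullMeasurableSet,
    Real.volume_Icc_pi]
  have h3 : ∀ i, ENNReal.ofReal (c i - - c i) = ENNReal.ofReal (2 * c i) := fun i => by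
    congr 1; ring
  simp_rw [h3]
  rw [← ENNReal.ofReal_prod_of_nonneg]
  · apply ENNReal.ofReal_le_ofReal
    rw [Finset.prod_mul_distrib, Finset.prod_const, Finset.card_univ, Fintype.card_fin]
    have h4 : ∏ i, c i = δ := by
      rw [hc]
      rw [Finset.prod_ite_eq' Finset.univ i0 (fun _ => δ)]
      simp
    rw [h4]
  · intro i _
    rw [hc]
    simp only
    split_ifs
    · positivity
    · norm_num

theorem exists_perp (d : ℕ) (hd : 2 ≤ d) (v : V d) (hv : ‖v‖ = 1) :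
    ∃ e : V d, ‖e‖ = 1 ∧ inner ℝ v e = 0 := by
  have hv0 : v ≠ 0 := by
    intro h
    rw [h, norm_zero] at hv
    exact zero_ne_one hv
  haveI : Fact (Module.finrank ℝ (V d) = (d - 1) + 1) := ⟨by
    rw [finrank_euclideanSpace_fin]; omega⟩
  have h1 : Module.finrank ℝ (ℝ ∙ v)ᗮ = d - 1 := Submodule.finrank_orthogonal_span_singleton hv0
  have h2 : 0 < Module.finrank ℝ (ℝ ∙ v)ᗮ := by omega
  haveI := Module.finrank_pos_iff.1 h2
  obtain ⟨w, hw⟩ := exists_ne (0 : (ℝ ∙ v)ᗮ)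
  have hw0 : (w : V d) ≠ 0 := fun h => hw (Subtype.ext h)
  have hwn : ‖(w : V d)‖ ≠ 0 := norm_ne_zero_iff.2 hw0
  refine ⟨‖(w : V d)‖⁻¹ • (w : V d), ?_, ?_⟩
  · rw [norm_smul, norm_inv, norm_norm, inv_mul_cancel₀ hwn]
  · have h3 : inner ℝ v (w : V d) = 0 := Submodule.mem_orthogonal_singleton_iff_inner_right.1 w.2
    rw [real_inner_smul_right, h3, mul_zero]

theorem t_CAP : S_CAP := by
  intro d hd
  set m : ℝ := (volume (Metric.ball (0 : V d) 1)).toReal with hm
  have hvpos : 0 < volume (Metric.ball (0 : V d) 1) := Metric.measure_ball_pos _ _ one_pos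
  have hvtop : volume (Metric.ball (0 : V d) 1) ≠ ⊤ := measure_ball_lt_top.ne
  have hm0 : 0 < m := ENNReal.toReal_pos hvpos.ne' hvtop
  refine ⟨max 1 (m⁻¹ * 2 ^ d), le_max_left _ _, fun v δ hv hδ => ?_⟩
  obtain ⟨e, he, hve⟩ := exists_perp d hd v hv
  have hmeas : Measurable (fun x : V d => ‖x‖⁻¹ • x) := by fun_prop
  have hS : MeasurableSet {w : V d | ‖w - v‖ ≤ δ} := measurableSet_le (by fun_prop) measurable_const
  rw [sig, Measure.map_apply hmeas hS, Measure.smul_apply, smul_eq_mul,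
    Measure.restrict_apply (hmeas hS)]
  have hsub : (fun x : V d => ‖x‖⁻¹ • x) ⁻¹' {w : V d | ‖w - v‖ ≤ δ} ∩ Metric.ball (0 : V d) 1 ⊆
      Metric.ball (0 : V d) 1 ∩ {x | |inner ℝ x e| ≤ δ} := by
    rintro x ⟨hx1, hx2⟩
    refine ⟨hx2, ?_⟩
    rw [Metric.mem_ball, dist_zero_right] at hx2
    have hx1' : ‖‖x‖⁻¹ • x - v‖ ≤ δ := hx1
    show |inner ℝ x e| ≤ δ
    by_cases hx0 : x = 0
    · rw [hx0, inner_zero_left, abs_zero]
      exact hδ.le
    · have hxn : ‖x‖ ≠ 0 := norm_ne_zero_iff.2 hx0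
      have e1 : inner ℝ x e = ‖x‖ * inner ℝ (‖x‖⁻¹ • x - v) e := by
        rw [inner_sub_left, hve, sub_zero, real_inner_smul_left, ← mul_assoc, mul_inv_cancel₀ hxn,
          one_mul]
      rw [e1, abs_mul, abs_of_nonneg (norm_nonneg x)]
      have e2 : |inner ℝ (‖x‖⁻¹ • x - v) e| ≤ δ := by
        refine (abs_real_inner_le_norm _ _).trans ?_
        rw [he, mul_one]
        exact hx1'
      calc ‖x‖ * |inner ℝ (‖x‖⁻¹ • x - v) e| ≤ 1 * δ :=
            mul_le_mul hx2.le e2 (abs_nonneg _) zero_le_one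
        _ = δ := one_mul δ
  have h1 := (measure_mono hsub).trans (slab d (by omega) e he δ hδ)
  have h2 : (volume (Metric.ball (0 : V d) 1))⁻¹ = ENNReal.ofReal m⁻¹ := by
    rw [ENNReal.ofReal_inv_of_pos hm0, hm, ENNReal.ofReal_toReal hvtop]
  rw [h2]
  calc ENNReal.ofReal m⁻¹ * volume ((fun x : V d => ‖x‖⁻¹ • x) ⁻¹' {w : V d | ‖w - v‖ ≤ δ} ∩
        Metric.ball (0 : V d) 1) ≤ ENNReal.ofReal m⁻¹ * ENNReal.ofReal (2 ^ d * δ) := by gcongr
    _ = ENNReal.ofReal (m⁻¹ * 2 ^ d * δ) := by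
      rw [← ENNReal.ofReal_mul (by positivity), mul_assoc]
    _ ≤ ENNReal.ofReal (max 1 (m⁻¹ * 2 ^ d) * δ) := by
      apply ENNReal.ofReal_le_ofReal
      gcongr
      exact le_max_right _ _

end Run7.h950.Met
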