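import Pool.Agent.Run7.h146.Met.I1

/-!
# Piece IND: independence of the configurations in three disjoint regions
-/

set_option autoImplicit false

open MeasureTheory Filter Topology ENNReal

namespace Run7.h950.Met

open Run7.h146.Met

theorem sig_fin (d : ℕ) : IsFiniteMeasure (sig d) := by
  unfold sig
  have h2 : 0 < volume (Metric.ball (0 : V d) 1) := Metric.measure_ball_pos _ _ one_pos
  have h3 : IsFiniteMeasure (volume.restrict (Metric.ball (0 : V d) 1)) :=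
    isFiniteMeasure_restrict.2 measure_ball_lt_top.ne
  have h4 : IsFiniteMeasure ((volume (Metric.ball (0 : V d) 1))⁻¹ •
      volume.restrict (Metric.ball (0 : V d) 1)) :=
    Measure.smul_finite _ (ENNReal.inv_ne_top.2 h2.ne')
  exact Measure.isFiniteMeasure_map _ _

theorem mB_fin {d : ℕ} {B : Set (V d)} (hB : volume B ≠ ⊤) : IsFiniteMeasure (mB B) := by
  unfold mB
  have h1 := sig_fin d
  have h3 : IsFiniteMeasure (volume.restrict B) := isFiniteMeasure_restrict.2 hB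
  infer_instance

theorem mB_restrict {d : ℕ} {B B₁ : Set (V d)} (hB₁ : MeasurableSet B₁) (hs : B₁ ⊆ B) :
    (mB B).restrict (B₁ ×ˢ Set.univ) = mB B₁ := by
  unfold mB
  have h1 := sig_fin d
  rw [← Measure.prod_restrict, Measure.restrict_univ, Measure.restrict_restrict hB₁,
    Set.inter_eq_self_of_subset_left hs]

theorem mB_restrict_compl {d : ℕ} {B B₁ : Set (V d)} (hB₁ : MeasurableSet B₁) :
    (mB B).restrict (B₁ ×ˢ Set.univ)ᶜ = mB (B \ B₁) := by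
  have h1 := sig_fin d
  have e : (B₁ ×ˢ (Set.univ : Set (V d)))ᶜ = B₁ᶜ ×ˢ Set.univ := by
    ext z
    simp
  rw [e]
  unfold mB
  rw [← Measure.prod_restrict, Measure.restrict_univ, Measure.restrict_restrict hB₁.compl,
    Set.inter_comm, Set.diff_eq]

/-- splitting in two regions -/
theorem two (hSUP : S_SUP) {d : ℕ} {B B₁ : Set (V d)} (hB : volume B ≠ ⊤)
    (hB₁ : MeasurableSet B₁) (hs : B₁ ⊆ B) {G H : Finset (X d) → ℝ≥0∞} (hG : Measurable G)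
    (hH : Measurable H) : ∫⁻ F, G (res B₁ F) * H (res B₁ᶜ F) ∂(poi (mB B)) =
      (∫⁻ F, G F ∂(poi (mB B₁))) * ∫⁻ F, H F ∂(poi (mB (B \ B₁))) := by
  have h1 := mB_fin hB
  have h2 := hSUP d (mB B) (B₁ ×ˢ Set.univ) (hB₁.prod MeasurableSet.univ) G H hG hH
  rw [mB_restrict hB₁ hs, mB_restrict_compl hB₁] at h2
  rw [← h2]
  apply lintegral_congr
  intro F
  congr 2
  · unfold res
    ext z
    simp
  · unfold res
    ext z
    simp

theorem res_res {d : ℕ} (A B : Set (V d)) (F : Finset (X d)) : res A (res B F) = res (A ∩ B) F := by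
  unfold res
  ext z
  simp only [Finset.mem_filter, Set.mem_inter_iff]
  tauto

theorem res_meas (hPO1 : S_PO1) (hPO2 : S_PO2) {d : ℕ} {B : Set (V d)} (hB : MeasurableSet B)
    {G : Finset (X d) → ℝ≥0∞} (hG : Measurable G) : Measurable fun F => G (res B F) := by
  obtain ⟨-, -, a3, a4⟩ := hPO1 d 0
  have h1 : TM (fun _ : Unit => G) := a4 Unit G hG
  obtain ⟨-, -, b3, -, -⟩ := hPO2 d Unit (fun _ => G) h1
  have h2 := b3 {p | p.2.1 ∈ B} (measurable_snd.fst hB)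
  exact a3 Unit _ h2 ()

theorem t_IND : S_SUP → S_PO1 → S_PO2 → S_IND := by
  intro hSUP hPO1 hPO2 d B B₁ B₂ B₃ hd hB hBv hB₁ hB₂ hB₃ s₁ s₂ s₃ d₁₂ d₁₃ d₂₃ G₁ G₂ G₃ m₁ m₂ m₃
  have one : ∀ (B B₁ : Set (V d)), volume B ≠ ⊤ → MeasurableSet B₁ → B₁ ⊆ B →
      ∀ G : Finset (X d) → ℝ≥0∞, Measurable G →
      ∫⁻ F, G (res B₁ F) ∂(poi (mB B)) = ∫⁻ F, G F ∂(poi (mB B₁)) := by
    intro B B₁ hBv hB₁ s₁ G hG
    have h1 := two hSUP hBv hB₁ s₁ hG (measurable_const (a := (1 : ℝ≥0∞)))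
    have h2 := mB_fin (measure_ne_top_of_subset Set.diff_subset hBv : volume (B \ B₁) ≠ ⊤)
    have h3 := (hPO1 d (mB (B \ B₁))).1
    simpa using h1
  refine ⟨res_meas hPO1 hPO2 hB₁ m₁, one B B₁ hBv hB₁ s₁ G₁ m₁, ?_⟩
  have e₂ : B₂ ∩ B₁ᶜ = B₂ := Set.inter_eq_left.2 (Set.disjoint_left.1 d₁₂.symm)
  have e₃ : B₃ ∩ B₁ᶜ = B₃ := Set.inter_eq_left.2 (Set.disjoint_left.1 d₁₃.symm)
  have e₃₂ : B₃ ∩ B₂ᶜ = B₃ := Set.inter_eq_left.2 (Set.disjoint_left.1 d₂₃.symm)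
  have n₂ := res_meas hPO1 hPO2 hB₂ m₂
  have n₃ := res_meas hPO1 hPO2 hB₃ m₃
  have hv1 : volume (B \ B₁) ≠ ⊤ := measure_ne_top_of_subset Set.diff_subset hBv
  have hv2 : volume ((B \ B₁) \ B₂) ≠ ⊤ := measure_ne_top_of_subset Set.diff_subset hv1
  have k1 := two hSUP hBv hB₁ s₁ m₁ (n₂.mul n₃)
  have k2 := two hSUP hv1 hB₂ (fun x hx => ⟨s₂ hx, fun h => Set.disjoint_left.1 d₁₂ h hx⟩) m₂ n₃
  have k3 := one ((B \ B₁) \ B₂) B₃ hv2 hB₃
    (fun x hx => ⟨⟨s₃ hx, fun h => Set.disjoint_left.1 d₁₃ h hx⟩,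
      fun h => Set.disjoint_left.1 d₂₃ h hx⟩) G₃ m₃
  simp only [Pi.mul_apply, res_res, e₂, e₃, e₃₂] at k1 k2
  simp only [mul_assoc]
  rw [k1, k2, k3]

end Run7.h950.Met
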