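import Pool.Agent.Run7.h146.Met.I2
import Pool.Agent.Run7.h950.Met.IND

/-!
# Pieces PPM and NEAR
-/

set_option autoImplicit false

open MeasureTheory Filter Topology ENNReal

namespace Run7.h950.Met

open Run7.h146.Met

theorem PQ_prob (hPO1 : S_PO1) (d : ℕ) (Q : ℝ) : IsProbabilityMeasure (PQ d Q) := by
  have h1 : IsFiniteMeasure (mB (Metric.ball (0 : V d) Q)) := mB_fin measure_ball_lt_top.ne
  exact (hPO1 d (mB (Metric.ball (0 : V d) Q))).1

theorem alive_anti {d : ℕ} {ε : ℝ} {z : X d} {t t' : ℝ} (h : t ≤ t') {F : Finset (X d)}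
    (hF : alive ε z t' F) : alive ε z t F :=
  lt_of_le_of_lt (ENNReal.ofReal_le_ofReal h) hF

theorem t_PPM : S_MB → S_PO1 → S_PPM := by
  intro hMB hPO1 d ε hd hε
  have hs := (hMB d hd).1
  have hle : ∀ t : ℝ, ∀ Q : ℕ, ∫⁻ v, PQ d Q {F | alive ε ((0 : V d), v) t F} ∂(sig d) ≤ 1 := by
    intro t Q
    have h1 := PQ_prob hPO1 d Q
    calc ∫⁻ v, PQ d Q {F | alive ε ((0 : V d), v) t F} ∂(sig d) ≤ ∫⁻ _, 1 ∂(sig d) :=
          lintegral_mono fun v => prob_le_one
      _ = 1 := by rw [lintegral_one, measure_univ]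
  have hlim : ∀ t : ℝ, limsup (fun Q : ℕ => ∫⁻ v, PQ d Q {F | alive ε ((0 : V d), v) t F}
      ∂(sig d)) atTop ≤ 1 := fun t =>
    (limsup_le_limsup (Eventually.of_forall (hle t))).trans (by simp)
  constructor
  · intro t
    refine ⟨ENNReal.toReal_nonneg, ?_⟩
    have := ENNReal.toReal_mono ENNReal.one_ne_top (hlim t)
    rwa [ENNReal.toReal_one] at this
  · intro t t' htt
    apply ENNReal.toReal_mono ((hlim t).trans_lt ENNReal.one_lt_top).ne
    refine limsup_le_limsup (Eventually.of_forall fun Q => ?_)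
    apply lintegral_mono
    intro v
    exact measure_mono fun F hF => alive_anti htt hF

theorem del_ins {α : Type*} {y : α} {F : Finset α} {z : α} (hy : y ∉ F) (hzy : z ≠ y) :
    del y (ins z (ins y F)) = ins z F := by
  classical
  unfold del ins
  ext x
  simp only [Finset.mem_erase, Finset.mem_insert]
  constructor
  · rintro ⟨h1, h2 | h2 | h2⟩
    · exact Or.inl h2
    · exact absurd h2 h1
    · exact Or.inr h2
  · rintro (h | h)
    · exact ⟨h ▸ hzy, Or.inl h⟩
    · exact ⟨fun hxy => hy (hxy ▸ h), Or.inr (Or.inr h)⟩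

theorem t_NEAR : S_PO1 → S_MK → S_MB → S_DEL → S_NEAR := by
  intro _ hMK hMB hDEL d ε hd hε t t' R z y B A ht htt hzy hB hBv
  obtain ⟨hfin, hnull, -, -⟩ := (hMB d hd).2.2.2 B hB hBv
  have h1 := (hMK d (mB B)).2 y
  apply measure_mono_ae
  filter_upwards [measure_eq_zero_iff_ae_notMem.1 h1] with F hy
  have hy' : y ∉ F := hy
  rintro ⟨hA, hal1, hal2⟩
  refine ⟨hA, ?_⟩
  have hyS : y ∈ ins z (ins y F) := by
    classical
    unfold ins
    simp
  have hzS : z ∈ ins z (ins y F) := by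
    classical
    unfold ins
    simp
  have h2 := hDEL d ε hε (ins z (ins y F)) y t ht hyS
    (lt_of_le_of_lt (ENNReal.ofReal_le_ofReal htt) hal2) z hzS hzy
  have h3 := h2.1 hal1
  rw [del_ins hy' hzy] at h3
  exact h3

end Run7.h950.Met
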