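import Pool.Agent.Run7.h146.Met.I1

/-!
# Piece PZ: the inequality of Paley and Zygmund on a part of the space
-/

set_option autoImplicit false

open MeasureTheory Filter Topology ENNReal

namespace Run7.h950.Met

open Run7.h146.Met

theorem t_PZ : S_PZ := by
  intro α _ μ _ A W a b t hA hW ha ht hta h1 h2 hb
  set E : Set α := {x | ENNReal.ofReal t ≤ W x} with hE
  have hEm : MeasurableSet E := measurableSet_le measurable_const hW
  set p : ℝ := (μ A).toReal with hp
  set q : ℝ := (μ (A ∩ E)).toReal with hq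
  have hp0 : 0 ≤ p := ENNReal.toReal_nonneg
  have hq0 : 0 ≤ q := ENNReal.toReal_nonneg
  have ep : μ A = ENNReal.ofReal p := (ENNReal.ofReal_toReal (measure_ne_top _ _)).symm
  have eq' : μ (A ∩ E) = ENNReal.ofReal q := (ENNReal.ofReal_toReal (measure_ne_top _ _)).symm
  set J : α → ℝ≥0∞ := E.indicator (fun _ => (1 : ℝ≥0∞)) with hJ
  have hJm : Measurable J := measurable_const.indicator hEm
  -- splitting
  have s1 : ∫⁻ x in A, W x ∂μ ≤ ∫⁻ x in A, (W * J) x ∂μ + ENNReal.ofReal t * μ A := by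
    have : ∫⁻ x in A, W x ∂μ ≤ ∫⁻ x in A, ((W * J) x + ENNReal.ofReal t) ∂μ := by
      apply lintegral_mono
      intro x
      by_cases hx : x ∈ E
      · have e1 : J x = 1 := by rw [hJ, Set.indicator_of_mem hx]
        show W x ≤ W x * J x + ENNReal.ofReal t
        rw [e1, mul_one]
        exact le_self_add
      · have hx' : W x ≤ ENNReal.ofReal t := (not_le.1 hx).le
        show W x ≤ W x * J x + ENNReal.ofReal t
        exact hx'.trans le_add_self
    refine this.trans ?_
    rw [lintegral_add_right _ measurable_const, setLIntegral_const]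
  have s2 : ∫⁻ x in A, (W * J) x ∂μ ≤
      (∫⁻ x in A, W x ^ (2 : ℝ) ∂μ) ^ (1 / (2 : ℝ)) * (∫⁻ x in A, J x ^ (2 : ℝ) ∂μ) ^ (1 / (2 : ℝ)) :=
    ENNReal.lintegral_mul_le_Lp_mul_Lq _ Real.HolderConjugate.two_two hW.aemeasurable
      hJm.aemeasurable
  have s3 : ∫⁻ x in A, J x ^ (2 : ℝ) ∂μ = μ (A ∩ E) := by
    have : ∀ x, J x ^ (2 : ℝ) = E.indicator 1 x := by
      intro x
      by_cases hx : x ∈ E
      · rw [hJ, Set.indicator_of_mem hx, Set.indicator_of_mem hx, ENNReal.one_rpow, Pi.one_apply]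
      · rw [hJ, Set.indicator_of_notMem hx, Set.indicator_of_notMem hx,
          ENNReal.zero_rpow_of_pos (by norm_num)]
    simp_rw [this]
    rw [lintegral_indicator_one hEm, Measure.restrict_apply hEm, Set.inter_comm]
  have s4 : ∫⁻ x in A, W x ^ (2 : ℝ) ∂μ ≤ ENNReal.ofReal (b * p) := by
    refine le_trans (le_of_eq ?_) h2
    apply lintegral_congr
    intro x
    exact ENNReal.rpow_two _
  have s5 : ENNReal.ofReal (a * p) ≤ ENNReal.ofReal (Real.sqrt (b * p) * Real.sqrt q + t * p) := by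
    refine h1.trans (s1.trans ?_)
    rw [ENNReal.ofReal_add (by positivity) (by positivity), ENNReal.ofReal_mul (Real.sqrt_nonneg _),
      ENNReal.ofReal_mul ht, ← ep]
    gcongr
    refine s2.trans ?_
    rw [s3, eq']
    have e1 : ENNReal.ofReal (Real.sqrt (b * p)) = ENNReal.ofReal (b * p) ^ (1 / (2 : ℝ)) := by
      rw [Real.sqrt_eq_rpow, ENNReal.ofReal_rpow_of_nonneg (by positivity) (by norm_num)]
    have e2 : ENNReal.ofReal (Real.sqrt q) = ENNReal.ofReal q ^ (1 / (2 : ℝ)) := by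
      rw [Real.sqrt_eq_rpow, ENNReal.ofReal_rpow_of_nonneg hq0 (by norm_num)]
    rw [e1, e2]
    gcongr
  have s6 : a * p ≤ Real.sqrt (b * p) * Real.sqrt q + t * p :=
    (ENNReal.ofReal_le_ofReal_iff (by positivity)).1 s5
  have s7 : a / 2 * p ≤ Real.sqrt (b * p * q) := by
    rw [Real.sqrt_mul (by positivity)]
    nlinarith
  have s8 : (a / 2 * p) ^ 2 ≤ b * p * q := by
    have := pow_le_pow_left₀ (by positivity) s7 2
    rwa [Real.sq_sqrt (by positivity)] at this
  rw [ep, eq', ← ENNReal.ofReal_mul (by positivity)]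
  apply ENNReal.ofReal_le_ofReal
  rcases hp0.eq_or_lt with h0 | h0
  · rw [← h0, mul_zero]
    exact hq0
  · rw [div_mul_eq_mul_div, div_le_iff₀ (by positivity)]
    nlinarith

end Run7.h950.Met
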