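import Pool.Agent.Run7.h950.Met.PPM

/-!
# Piece STA: a meteor which is removed between two times meets another one
-/

set_option autoImplicit false

open MeasureTheory Filter Topology ENNReal

namespace Run7.h950.Met

open Run7.h146.Met

theorem mem_ins_self {α : Type*} (z : α) (F : Finset α) : z ∈ ins z F := by
  classical
  unfold ins
  simp

theorem mem_ins {α : Type*} {z x : α} {F : Finset α} : x ∈ ins z F ↔ x = z ∨ x ∈ F := by
  classical
  unfold ins
  simp

theorem TM.comp' {β γ α : Type*} [MeasurableSpace β] [MeasurableSpace γ] [MeasurableSpace α]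
    {h : β → Finset α → ℝ≥0∞} (hh : TM h) {g : γ → β} (hg : Measurable g) :
    TM fun c F => h (g c) F := by
  intro n
  exact (hh n).comp ((hg.comp measurable_fst).prodMk measurable_snd)

/-- a meteor which exists at time `T`, but not at time `T'`, meets another one in between -/
theorem exists_partner {d : ℕ} {ε : ℝ} {S : Finset (X d)} {D : X d → ℝ≥0∞} (hD : IsD ε S D)
    {z : X d} (hz : z ∈ S) {a b : ℝ≥0∞} (hb : b ≠ ⊤) (h1 : a < D z) (h2 : D z ≤ b) :
    ∃ y ∈ S, y ≠ z ∧ a < ct ε z y ∧ ct ε z y ≤ b ∧ a < D y := by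
  classical
  set T : Finset (X d) := S.filter fun y => y ≠ z ∧ ct ε z y ≤ D y with hT
  have hDz := hD z hz
  have hmem : ∀ y, y ∈ T ↔ (y ∈ S ∧ y ≠ z ∧ ct ε z y ≤ D y) := by
    intro y
    rw [hT, Finset.mem_filter]
  have hne : T.Nonempty := by
    by_contra hne
    rw [Finset.not_nonempty_iff_eq_empty] at hne
    have : D z = ⊤ := by
      rw [hDz]
      simp only [iInf_eq_top]
      intro y hy
      exact absurd ((hmem y).2 hy) (by rw [hne]; exact Finset.notMem_empty y)
    rw [this] at h2
    exact hb (top_le_iff.1 h2)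
  obtain ⟨y, hy, hmin⟩ := Finset.exists_min_image T (fun y => ct ε z y) hne
  have hy' := (hmem y).1 hy
  have hle : ct ε z y ≤ D z := by
    rw [hDz]
    exact le_iInf₂ fun w hw => hmin w ((hmem w).2 hw)
  have hge : D z ≤ ct ε z y := by
    rw [hDz]
    exact iInf₂_le y hy'
  have heq : ct ε z y = D z := le_antisymm hle hge
  refine ⟨y, hy'.1, hy'.2.1, by rw [heq]; exact h1, hle.trans h2, ?_⟩
  have := hy'.2.2
  rw [heq] at this
  exact h1.trans_le this

attribute [local irreducible] ct dt

/-- the pairs of a partner and a configuration -/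
def HS {d : ℕ} (ε : ℝ) (z : X d) (T T' : ℝ) : Set (X d × Finset (X d)) :=
  {q | (ENNReal.ofReal T < ct ε z q.1 ∧ ct ε z q.1 ≤ ENNReal.ofReal T') ∧
    ENNReal.ofReal T < dt ε (ins z q.2) z ∧ ENNReal.ofReal T < dt ε (ins z q.2) q.1}

/-- the functional which counts the partners -/
noncomputable def hh {d : ℕ} (ε : ℝ) (z : X d) (T T' : ℝ) (y : X d) (F : Finset (X d)) : ℝ≥0∞ :=
  (HS ε z T T').indicator (fun _ => 1) (y, F)

open Classical in
theorem hh_TM (hPO2 : S_PO2) (hCT : S_CT) (hDM : S_DM) {d : ℕ} {ε : ℝ} (hε : 0 < ε) (z : X d)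
    (T T' : ℝ) : TM (hh ε z T T') := by
  have hct : Measurable fun p : X d × X d => ct ε p.1 p.2 := (hCT d ε hε).1
  have hpm : Measurable (Prod.mk z : X d → X d × X d) := measurable_prodMk_left
  have hctz : Measurable fun y : X d => ct ε z y := hct.comp hpm
  have hTM1 : TM (fun (p : X d × X d) F => dt ε (ins p.2 F) p.1) :=
    (hPO2 d (X d) (fun z F => dt ε F z) (hDM d ε hε)).1
  have hTMz : TM (fun (_ : X d) F => dt ε (ins z F) z) :=
    TM.comp' hTM1 (measurable_const.prodMk measurable_const : Measurable fun _ : X d => (z, z))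
  have hTMy : TM (fun (y : X d) F => dt ε (ins z F) y) :=
    TM.comp' hTM1 (measurable_id.prodMk measurable_const : Measurable fun y : X d => (y, z))
  intro n
  have m1 := measurableSet_lt (measurable_const (a := ENNReal.ofReal T)) (hTMz n)
  have m2 := measurableSet_lt (measurable_const (a := ENNReal.ofReal T)) (hTMy n)
  have m3 : MeasurableSet {p : X d × (Fin n → X d) | ENNReal.ofReal T < ct ε z p.1 ∧
      ct ε z p.1 ≤ ENNReal.ofReal T'} :=
    (measurableSet_lt measurable_const (hctz.comp measurable_fst)).inter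
      (measurableSet_le (hctz.comp measurable_fst) measurable_const)
  have m0 : Measurable (fun _ : X d × (Fin n → X d) => (1 : ℝ≥0∞)) := measurable_const
  have m := m0.indicator (m3.inter (m1.inter m2))
  convert m using 1
  funext p
  unfold hh
  rw [Set.indicator_apply, Set.indicator_apply]
  exact if_congr Iff.rfl rfl rfl

theorem t_STA : S_PO1 → S_PO2 → S_PO3 → S_MK → S_MB → S_CT → S_DYN → S_DM → S_MEAS → S_STA := by
  intro hPO1 hPO2 hPO3 hMK hMB hCT hDYN hDM hMEAS d ε hd hε B z T T' hB hBv hT hTT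
  obtain ⟨hfin, hnull, -, -⟩ := (hMB d hd).2.2.2 B hB hBv
  have hct : Measurable fun p : X d × X d => ct ε p.1 p.2 := (hCT d ε hε).1
  have hpm : Measurable (Prod.mk z : X d → X d × X d) := measurable_prodMk_left
  have hctz : Measurable fun y : X d => ct ε z y := hct.comp hpm
  obtain ⟨-, -, -, -, -, -, hal2m, -⟩ := hMEAS d ε hd hε
  set W : Set (X d) := {y | ENNReal.ofReal T < ct ε z y ∧ ct ε z y ≤ ENNReal.ofReal T'} with hW
  have hWm : MeasurableSet W :=
    (measurableSet_lt measurable_const hctz).inter (measurableSet_le hctz measurable_const)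
  have hTM := hh_TM hPO2 hCT hDM hε z T T'
  obtain ⟨hMKh, hnz⟩ := hMK d (mB B)
  have hMKh := hMKh (hh ε z T T') hTM
  have hnz := hnz z
  have hsumm : Measurable fun F : Finset (X d) => ∑ y ∈ F, hh ε z T T' y F := by
    have h1 : TM (fun (_ : Unit) F => ∑ x ∈ F, (fun (p : Unit × X d) F => hh ε z T T' p.2 F)
        ((), x) F) :=
      hPO3 d Unit (fun p F => hh ε z T T' p.2 F) (TM.comp' hTM measurable_snd)
    exact (hPO1 d (mB B)).2.2.1 Unit _ h1 ()
  -- the event of a removal in between
  have hsub : poi (mB B) {F | alive ε z T F ∧ ¬ alive ε z T' F} ≤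
      ∫⁻ F, ∑ y ∈ F, hh ε z T T' y F ∂(poi (mB B)) := by
    have h1 : {F | alive ε z T F ∧ ¬ alive ε z T' F} ≤ᵐ[poi (mB B)]
        {F | 1 ≤ ∑ y ∈ F, hh ε z T T' y F} := by
      filter_upwards [measure_eq_zero_iff_ae_notMem.1 hnz] with F hzF
      rintro ⟨ha, hb⟩
      have hD := (hDYN d ε (ins z F)).1
      obtain ⟨y, hyS, hyz, hy1, hy2, hy3⟩ := exists_partner hD (mem_ins_self z F)
        ENNReal.ofReal_ne_top ha (not_lt.1 hb)
      have hyF : y ∈ F := by
        rcases mem_ins.1 hyS with h2 | h2
        · exact absurd h2 hyz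
        · exact h2
      have h3 : hh ε z T T' y F = 1 := by
        unfold hh
        have hq : (y, F) ∈ HS ε z T T' := ⟨⟨hy1, hy2⟩, ha, hy3⟩
        rw [Set.indicator_of_mem hq]
      show 1 ≤ ∑ y ∈ F, hh ε z T T' y F
      rw [← h3]
      exact Finset.single_le_sum (f := fun y => hh ε z T T' y F) (fun _ _ => zero_le) hyF
    refine (measure_mono_ae h1).trans ?_
    have h2 := mul_meas_ge_le_lintegral (μ := poi (mB B)) hsumm 1
    rwa [one_mul] at h2
  have hval : ∀ y, ∫⁻ F, hh ε z T T' y (ins y F) ∂(poi (mB B)) =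
      W.indicator (fun y => poi (mB B) {F | al2 ε z T y T F}) y := by
    intro y
    by_cases hy : y ∈ W
    · rw [Set.indicator_of_mem hy]
      have e1 : ∀ F, hh ε z T T' y (ins y F) = Set.indicator {F | al2 ε z T y T F} 1 F := by
        intro F
        unfold hh
        by_cases hF : al2 ε z T y T F
        · have hq : (y, ins y F) ∈ HS ε z T T' := ⟨hy, hF.1, hF.2⟩
          rw [Set.indicator_of_mem (show F ∈ {F | al2 ε z T y T F} from hF),
            Set.indicator_of_mem hq]
          rfl
        · rw [Set.indicator_of_notMem (show F ∉ {F | al2 ε z T y T F} from hF),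
            Set.indicator_of_notMem]
          rintro ⟨-, h2, h3⟩
          exact hF ⟨h2, h3⟩
      simp_rw [e1]
      exact lintegral_indicator_one (hal2m z y T T)
    · rw [Set.indicator_of_notMem hy]
      have e1 : ∀ F, hh ε z T T' y (ins y F) = 0 := by
        intro F
        unfold hh
        rw [Set.indicator_of_notMem]
        rintro ⟨h2, -⟩
        exact hy h2
      simp_rw [e1]
      exact lintegral_zero
  calc poi (mB B) {F | alive ε z T F} ≤
        poi (mB B) ({F | alive ε z T' F} ∪ {F | alive ε z T F ∧ ¬ alive ε z T' F}) := by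
        apply measure_mono
        intro F hF
        by_cases h2 : alive ε z T' F
        · exact Or.inl h2
        · exact Or.inr ⟨hF, h2⟩
    _ ≤ poi (mB B) {F | alive ε z T' F} + poi (mB B) {F | alive ε z T F ∧ ¬ alive ε z T' F} :=
        measure_union_le _ _
    _ ≤ poi (mB B) {F | alive ε z T' F} + ∫⁻ F, ∑ y ∈ F, hh ε z T T' y F ∂(poi (mB B)) := by gcongr
    _ = poi (mB B) {F | alive ε z T' F} + ∫⁻ y in W, poi (mB B) {F | al2 ε z T y T F} ∂(mB B) := by
        rw [hMKh]
        simp_rw [hval]
        rw [lintegral_indicator hWm]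

end Run7.h950.Met
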