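import Pool.Agent.Run7.h146.Met.I1

/-!
# Piece ZO: a zero-one law
-/

set_option autoImplicit false

open MeasureTheory Filter Topology ENNReal

namespace Run7.h950.Met

open Run7.h146.Met

theorem t_ZO : S_ZO := by
  intro Ω m0 P _ ℱ I c hc hI h
  have hle : (⨆ n, ℱ n) ≤ m0 := iSup_le fun n => ℱ.le n
  have hI0 : MeasurableSet[m0] I := hle _ hI
  set g : Ω → ℝ := I.indicator (fun _ => (1 : ℝ)) with hg
  have hgint : Integrable g P := (integrable_const (1 : ℝ)).indicator hI0
  have hlim := tendsto_ae_condExp (μ := P) (ℱ := ℱ) g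
  have hsup : P[g | ⨆ n, ℱ n] = g := by
    apply condExp_of_stronglyMeasurable hle
    · exact StronglyMeasurable.indicator stronglyMeasurable_const hI
    · exact hgint
  have hlow : ∀ n, ∀ᵐ x ∂P, c / 2 < (P[g | ℱ n]) x := by
    intro n
    set A : Set Ω := {x | (P[g | ℱ n]) x ≤ c / 2} with hA
    have hAm : MeasurableSet[ℱ n] A :=
      (stronglyMeasurable_condExp (m := ℱ n) (μ := P) (f := g)).measurable measurableSet_Iic
    have hAm0 : MeasurableSet A := ℱ.le n _ hAm
    have h1 : ∫ x in A, (P[g | ℱ n]) x ∂P = ∫ x in A, g x ∂P := setIntegral_condExp (ℱ.le n) hgint hAm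
    have h2 : ∫ x in A, g x ∂P = (P (I ∩ A)).toReal := by
      rw [hg, integral_indicator_const _ hI0, smul_eq_mul, mul_one, Measure.real,
        Measure.restrict_apply hI0]
    have h3 : ∫ x in A, (P[g | ℱ n]) x ∂P ≤ ∫ _ in A, c / 2 ∂P := by
      apply setIntegral_mono_on integrable_condExp.integrableOn (integrable_const _).integrableOn hAm0
      intro x hx
      exact hx
    rw [setIntegral_const, smul_eq_mul] at h3
    have h4 := h n A hAm
    have h5 : c * (P A).toReal ≤ (P (I ∩ A)).toReal := by
      have := ENNReal.toReal_mono (measure_ne_top _ _) h4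
      rwa [ENNReal.toReal_mul, ENNReal.toReal_ofReal hc.le] at this
    have h6 : (P A).toReal = 0 := by
      have h7 : 0 ≤ (P A).toReal := ENNReal.toReal_nonneg
      rw [h1, h2, Measure.real] at h3
      nlinarith
    have h8 : P A = 0 := by
      rw [ENNReal.toReal_eq_zero_iff] at h6
      exact h6.resolve_right (measure_ne_top _ _)
    filter_upwards [measure_eq_zero_iff_ae_notMem.1 h8] with x hx
    exact not_le.1 hx
  have hall : ∀ᵐ x ∂P, x ∈ I := by
    filter_upwards [hlim, ae_all_iff.2 hlow] with x hx1 hx2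
    rw [hsup] at hx1
    have h9 : c / 2 ≤ g x := ge_of_tendsto' hx1 fun n => (hx2 n).le
    by_contra hne
    rw [hg, Set.indicator_of_notMem hne] at h9
    linarith
  rw [← measure_univ (μ := P)]
  apply measure_congr
  rw [eventuallyEq_univ]
  exact hall

end Run7.h950.Met
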