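import Pool.Agent.Run7.h146.Met.I1

/-!
# Piece SEP: two visitors of the origin start far from each other
-/

set_option autoImplicit false

open MeasureTheory Filter Topology ENNReal

namespace Run7.h950.Met

open Run7.h146.Met

theorem t_SEP : S_SEP := by
  intro d ε n m z y hε hn hnm hz hy h1 h2
  have hm : 0 ≤ m := hn.trans hnm
  set p := pos z n with hp
  set q := pos y m with hq
  have ez : z.1 = p - n • z.2 := by rw [hp, pos]; abel
  have ey : y.1 = q - m • y.2 := by rw [hq, pos]; abel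
  have nz : ‖n • z.2‖ = n := by rw [norm_smul, hz, mul_one, Real.norm_of_nonneg hn]
  have ny : ‖m • y.2‖ = m := by rw [norm_smul, hy, mul_one, Real.norm_of_nonneg hm]
  have key1 : m - n ≤ ‖n • z.2 - m • y.2‖ := by
    have := norm_sub_norm_le (m • y.2) (n • z.2)
    rw [nz, ny, norm_sub_rev] at this
    exact this
  have key2 : n * ‖z.2 - y.2‖ ≤ ‖n • z.2 - m • y.2‖ := by
    have e1 : ‖n • z.2 - m • y.2‖ ^ 2 = n ^ 2 - 2 * (n * m * inner ℝ z.2 y.2) + m ^ 2 := by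
      rw [norm_sub_sq_real, nz, ny, real_inner_smul_left, real_inner_smul_right]
      ring
    have e2 : ‖z.2 - y.2‖ ^ 2 = 2 - 2 * inner ℝ z.2 y.2 := by
      rw [norm_sub_sq_real, hz, hy]
      ring
    have e3 : (n * ‖z.2 - y.2‖) ^ 2 ≤ ‖n • z.2 - m • y.2‖ ^ 2 := by
      rw [mul_pow, e1]
      have e4 : inner ℝ z.2 y.2 = 1 - ‖z.2 - y.2‖ ^ 2 / 2 := by rw [e2]; ring
      rw [e4]
      have e5 : 0 ≤ ‖z.2 - y.2‖ ^ 2 := sq_nonneg _
      nlinarith [sq_nonneg (m - n), mul_nonneg (mul_nonneg hn (sub_nonneg.2 hnm)) e5]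
    exact (pow_le_pow_iff_left₀ (by positivity) (norm_nonneg _) two_ne_zero).1 e3
  have key3 : ‖n • z.2 - m • y.2‖ - 2 * ε ≤ ‖z.1 - y.1‖ := by
    have e1 : n • z.2 - m • y.2 = (p - q) - (z.1 - y.1) := by
      rw [ez, ey]; abel
    have e2 : ‖n • z.2 - m • y.2‖ ≤ ‖p - q‖ + ‖z.1 - y.1‖ := by
      rw [e1]; exact norm_sub_le _ _
    have e3 : ‖p - q‖ ≤ ‖p‖ + ‖q‖ := norm_sub_le _ _
    linarith
  refine ⟨?_, ?_, ?_⟩
  · have := max_le key1 key2
    linarith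
  · have e1 : n • z.2 = p - z.1 := by rw [ez]; abel
    have e2 : ‖n • z.2‖ ≤ ‖p‖ + ‖z.1‖ := by rw [e1]; exact norm_sub_le _ _
    rw [nz] at e2
    linarith
  · have e2 : ‖z.1‖ ≤ ‖p‖ + ‖n • z.2‖ := by rw [ez]; exact norm_sub_le _ _
    rw [nz] at e2
    linarith

end Run7.h950.Met
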